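import Pool.Agent.H.MP_4c1ea5_lc.A

set_option autoImplicit false

namespace Pool.Agent.Results.MP_4c1ea5_lc.Q1

open Filter Topology Pool.Agent.H.MP_4c1ea5_lc Pool.Agent.Lib.helper21 Pool.Agent.Lib.helper21.PR
open Pool.Agent.H.MP_65fbb9_lc

/-- proportion of disagreement below `n` -/
noncomputable def dis (A B : ℕ → Bool) (n : ℕ) : ℝ :=
  (((Finset.range n).filter fun k => A k ≠ B k).card : ℝ) / (n : ℝ)

/-- coarse similarity -/
def Sim (A B : ℕ → Bool) : Prop := Tendsto (dis A B) atTop (𝓝 0)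

/-- the density pseudometric -/
noncomputable def delta (A B : ℕ → Bool) : ℝ := limsup (dis A B) atTop

theorem ev {A B : ℕ → Bool} {k : ℕ} (h : ∀ᶠ m in atTop, dis A B m < 1 / (k + 1)) :
    ∀ᶠ m in atTop, k * ds m A B ≤ m := by
  filter_upwards [h, eventually_gt_atTop 0] with m h hm
  rw [dis, div_lt_div_iff₀ (by positivity) (by positivity)] at h
  have : ds m A B * (k + 1) < 1 * m := by exact_mod_cast h
  nlinarith

theorem result : ∃ U : Set (ℕ → Bool),
    (∀ A ∈ U, ∀ B, TuringEquivalent (Fn.orc B) (Fn.orc A) → B ∈ U) ∧ U.Nonempty ∧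
    (∃ X, ∀ A ∈ U, ¬ Sim A X) ∧
    ∀ B, (∀ ε > 0, ∃ A ∈ U, delta A B < ε) → ∃ A ∈ U, Sim A B := by
  refine ⟨{A | ¬ CI A (J O)}, fun A h B e k => h (k.trans (.of_orc e.1)), ⟨O, not_J O⟩,
    ⟨_, fun A h k => h (vote (ev (k.eventually (gt_mem_nhds (by positivity)))))⟩, fun B h => ?_⟩
  obtain ⟨G, h1, h2⟩ := avoid (B := B) (X := J O) fun k => (h (1 / (k + 1)) (by positivity)).imp
    fun A a => ⟨a.1, ev (eventually_lt_of_limsup_lt a.2 (isBoundedUnder_of ⟨1, fun n =>
      div_le_one_of_le₀ (Nat.cast_le.2 ((Finset.card_filter_le _ _).trans_eq (Finset.card_range n)))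
        n.cast_nonneg⟩))⟩
  refine ⟨G, h1, tendsto_order.2 ⟨fun a ha => .of_forall fun n => ha.trans_le (by
    unfold dis; positivity), fun a ha => ?_⟩⟩
  obtain ⟨k, hk⟩ := exists_nat_one_div_lt ha
  filter_upwards [h2 (k + 1), eventually_gt_atTop 0] with m h hm
  refine lt_of_le_of_lt ?_ hk
  rw [dis, div_le_div_iff₀ (by positivity) (by positivity), one_mul, mul_comm]
  exact_mod_cast h

end Pool.Agent.Results.MP_4c1ea5_lc.Q1
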